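import Pool.Agent.Helper4.CoGirth.Converse

/-!
# Computing the co-girth of the planar rigidity matroid

`graphOf M` is the simple graph with adjacency matrix `M`, `IsRigid` and `coGirth` are the notions
of the problem.  Computing `c(G)` for the graphs `G` that are rigid in the plane is NP-hard: every
NP language `L` reduces in polynomial time to the question whether `c(G) ≤ t` for a rigid graph
`G`.  Moreover a polynomial-time algorithm computing `c(G)` for all rigid `G` exists if and only if
P = NP.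
-/

set_option autoImplicit false

namespace Pool.Agent.Results.MP_702614_lc.CoGirthIffPeqNP

open Pool.Agent.PolyTime Pool.Agent.Helper77.CoGirth Pool.Agent.Helper4.CoGirth

theorem result :
    (∀ L : Set (List Bool), InNP L → ∃ g : List Bool → List (List Bool) × ℕ, PolyTime g ∧
      ∀ x, IsRigid (graphOf (g x).1) ∧ (x ∈ L ↔ coGirth (graphOf (g x).1) ≤ (g x).2)) ∧
    ((∃ c : List (List Bool) → ℕ, PolyTime c ∧
        ∀ M, IsRigid (graphOf M) → c M = coGirth (graphOf M)) ↔
      ∀ L : Set (List Bool), InNP L → InP L) := by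
  have h1 : ∀ L : Set (List Bool), InNP L →
      ∃ g : List Bool → List (List Bool) × ℕ, PolyTime g ∧
      ∀ x, IsRigid (graphOf (g x).1) ∧ (x ∈ L ↔ coGirth (graphOf (g x).1) ≤ (g x).2) := by
    intro L hL
    obtain ⟨f, hf, hf'⟩ := npHard_SAT L hL
    obtain ⟨g, hg, hg'⟩ := exists_reduction
    exact ⟨fun x => g (f x), hg.comp hf, fun x => ⟨(hg' _).1, (hf' x).trans (hg' _).2⟩⟩
  refine ⟨h1, ?_, fun H => ?_⟩
  · rintro ⟨c, hc, hc'⟩ L hL
    obtain ⟨g, hg, hg'⟩ := h1 L hL
    refine ⟨fun x => decide (c (g x).1 ≤ (g x).2),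
      PolyTime.decide_le (hc.comp hg.fst) hg.snd, fun x => ?_⟩
    rw [decide_eq_true_eq, hc' _ (hg' x).1]
    exact (hg' x).2.symm
  · obtain ⟨c, hc, hc'⟩ := exists_polyTime_coGirth H
    exact ⟨c, hc, fun M _ => hc' M⟩

end Pool.Agent.Results.MP_702614_lc.CoGirthIffPeqNP
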